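import Pool.Agent.Helper4.LE.Rt
import Pool.Agent.Helper4.LT.Ga

/-!
PROJECT ALLQ, LT2 side over a number field: the theta structure `IsThA` for `f = τ ^ 3`.
-/

set_option autoImplicit false

namespace Pool.Agent.Helper4.LE

open Finset Pool.Agent.Helper34.LT LTG Pool.Agent.Helper34.LU Pool.Agent.Helper53.LE
open Pool.Agent.Helper13.LT (PS)

/-- an `RTx` function has an everywhere convergent power series -/
theorem RTx_ps {ι : Type} [Fintype ι] (α : ℂ) (f : (ι → ℂ) → ℂ) (h : RTx α f) :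
    ∃ a : (ι → ℕ) → ℂ, PS a f := by
  obtain ⟨d, B, D, -, -, A, -, -, hA⟩ := h
  exact ⟨_, hA⟩

/-- the theta structure (`f = τ ^ 3`) -/
theorem TH_E (α : ℂ) (q : ℕ) (s : Finset ℕ) (hs : HS q s) (ρ : ℕ → ℂ) (hρ : ∀ u ∈ s, ρ u ≠ 0)
    (κ : s → ℂ) (hκ : ∀ u, κ u ≠ 0) (c : Polynomial ℤ → ℂ) (τ : (s → ℂ) → ℂ)
    (hd : Differentiable ℂ τ) (h0 : τ 0 ≠ 0) (hq : QPS q s ρ κ c τ)
    (hrt : RTx α τ) :
    IsThA α q s ρ (fun u => 3 * κ u) (fun P => 3 * c P) (fun z => τ z ^ 3) := by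
  have hne : ∃ z, τ z ≠ 0 := ⟨0, h0⟩
  have hT0 : (fun z => TT τ (Sum.elim z (0 : s ⊕ s → ℂ))) = fun z => τ z ^ 3 := by
    funext z
    have e1 : (fun u => Sum.elim z (0 : s ⊕ s → ℂ) (Sum.inl u) +
        Sum.elim z (0 : s ⊕ s → ℂ) (Sum.inr (Sum.inl u))) = z := by
      funext u
      simp
    have e2 : (fun u => Sum.elim z (0 : s ⊕ s → ℂ) (Sum.inl u) +
        Sum.elim z (0 : s ⊕ s → ℂ) (Sum.inr (Sum.inr u))) = z := by
      funext u
      simp
    have e3 : (fun u => Sum.elim z (0 : s ⊕ s → ℂ) (Sum.inl u) -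
        Sum.elim z (0 : s ⊕ s → ℂ) (Sum.inr (Sum.inl u)) -
        Sum.elim z (0 : s ⊕ s → ℂ) (Sum.inr (Sum.inr u))) = z := by
      funext u
      simp
    unfold TT
    rw [e1, e2, e3]
    ring
  have hFd : ∀ w : s ⊕ s → ℂ, Differentiable ℂ (fun z => TT τ (Sum.elim z w)) := by
    intro w
    refine (TT_diff τ hd).comp ?_
    rw [differentiable_pi]
    rintro (u | u)
    · simp only [Sum.elim_inl]
      exact differentiable_apply u
    · simp only [Sum.elim_inr]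
      exact differentiable_const _
  have hFQ : ∀ w : s ⊕ s → ℂ, QPS q s ρ (fun u => 3 * κ u) (fun P => 3 * c P)
      (fun z => TT τ (Sum.elim z w)) := TT_QP q s ρ κ c τ hq
  have hfd : Differentiable ℂ (fun z => τ z ^ 3) := hd.pow 3
  have hfQ : QPS q s ρ (fun u => 3 * κ u) (fun P => 3 * c P) (fun z => τ z ^ 3) := by
    rw [← hT0]
    exact hFQ 0
  have hrt3 : RTx α (fun z => τ z ^ 3) := RTx_pow α τ hrt 3
  refine ⟨⟨hs, hρ, fun u => mul_ne_zero (by norm_num) (hκ u), hfd, hfQ, RTx_ps α _ hrt3, ?_,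
    ⟨0, pow_ne_zero 3 h0⟩, ?_, ?_⟩, hrt3⟩
  · exact growth q s hs ρ hρ _ _ _ hfd.continuous hfQ
  · intro p
    obtain ⟨w, hw⟩ := TT_ne τ hd hne p
    exact ⟨fun z => TT τ (Sum.elim z w), hFd w, hFQ w, hw⟩
  · intro v hv
    by_contra hcon
    push Not at hcon
    have h00 : (fun z => τ z ^ 3) (0 : s → ℂ) ≠ 0 := pow_ne_zero 3 h0
    refine hv (TT_span q s hs ρ κ hκ c τ hd hne hq v
      (fderiv ℂ (fun z => τ z ^ 3) 0 v / (fun z => τ z ^ 3) (0 : s → ℂ)) ?_)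
    intro w
    have h1 := hcon (fun z => TT τ (Sum.elim z w)) (fun z => τ z ^ 3) (hFd w) hfd (hFQ w) hfQ
    field_simp
    linear_combination h1

end Pool.Agent.Helper4.LE
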