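import Pool.Agent.Helper53.LE.Df
import Pool.Agent.Helper13.LT.Psm

/-!
PROJECT ALLQ, LT2 side over a number field: rules for `RTA` and `RTx` (products, powers).
-/

set_option autoImplicit false

namespace Pool.Agent.Helper4.LE

open Finset Pool.Agent.Helper34.LT LTG Pool.Agent.Helper34.LU Pool.Agent.Helper53.LE
open Pool.Agent.Helper13.LT (PS adg cv mem_adg)

private theorem Rt_adg {ι : Type} [Fintype ι] (m : ι → ℕ) :
    ∑ p ∈ adg m, ∏ u, (((p.1 u + p.2 u).choose (p.2 u) : ℕ) : ℝ) = 2 ^ (∑ u, m u) := by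
  classical
  unfold adg
  rw [sum_image]
  · have h1 : ∀ i ∈ Fintype.piFinset (fun u => range (m u + 1)),
        ∏ u, (((i u + (m - i) u).choose ((m - i) u) : ℕ) : ℝ) =
          ∏ u, (((m u).choose (i u) : ℕ) : ℝ) := by
      intro i hi
      rw [Fintype.mem_piFinset] at hi
      refine prod_congr rfl fun u _ => ?_
      have h2 := mem_range.1 (hi u)
      have h3 : i u ≤ m u := by omega
      rw [Pi.sub_apply, Nat.add_sub_cancel' h3, Nat.choose_symm h3]
    rw [sum_congr rfl h1, ← prod_univ_sum (fun u => range (m u + 1))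
      (fun u j => (((m u).choose j : ℕ) : ℝ)), ← prod_pow_eq_pow_sum]
    refine prod_congr rfl fun u _ => ?_
    have h4 := Nat.sum_range_choose (m u)
    exact_mod_cast h4
  · intro i _ j _ hij
    exact (Prod.ext_iff.1 hij).1

private theorem Rt_coeff (P Q : Polynomial ℤ) (d : ℕ) (hP : P.natDegree ≤ d) (M M' : ℝ)
    (h : ∀ i, |((P.coeff i : ℤ) : ℝ)| ≤ M) (h' : ∀ i, |((Q.coeff i : ℤ) : ℝ)| ≤ M') (i : ℕ) :
    |(((P * Q).coeff i : ℤ) : ℝ)| ≤ (d + 1) * (M * M') := by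
  have hM : 0 ≤ M := (abs_nonneg _).trans (h 0)
  have hM' : 0 ≤ M' := (abs_nonneg _).trans (h' 0)
  rw [Polynomial.coeff_mul, Finset.Nat.sum_antidiagonal_eq_sum_range_succ_mk]
  push_cast
  refine (abs_sum_le_sum_abs _ _).trans ?_
  have h1 : ∀ k ∈ range (i + 1), |(((P.coeff k : ℤ) : ℝ)) * ((Q.coeff (i - k) : ℤ) : ℝ)| ≤
      if k ∈ range (d + 1) then M * M' else 0 := by
    intro k _
    rw [abs_mul]
    split_ifs with hk
    · exact mul_le_mul (h k) (h' _) (abs_nonneg _) hM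
    · rw [mem_range, not_lt] at hk
      rw [Polynomial.coeff_eq_zero_of_natDegree_lt (by omega)]
      simp
  refine (sum_le_sum h1).trans ?_
  rw [← sum_filter, sum_const, nsmul_eq_mul]
  refine mul_le_mul_of_nonneg_right ?_ (mul_nonneg hM hM')
  have h2 : (filter (fun k => k ∈ range (d + 1)) (range (i + 1))).card ≤ d + 1 := by
    refine (card_le_card (t := range (d + 1)) fun k hk => (mem_filter.1 hk).2).trans ?_
    rw [card_range]
  exact_mod_cast h2

private theorem Rt_ne {ι : Type} [Fintype ι] (m : ι → ℕ) : ∏ u, ((m u).factorial : ℂ) ≠ 0 :=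
  Finset.prod_ne_zero_iff.2 fun _ _ => Nat.cast_ne_zero.2 (Nat.factorial_ne_zero _)

private theorem Rt_fac (a b : ℕ) :
    ((a.factorial : ℝ)) ^ 3 * ((b.factorial : ℝ)) ^ 3 ≤ (((a + b).factorial : ℕ) : ℝ) ^ 3 := by
  rw [← mul_pow]
  have h1 : a.factorial * b.factorial ≤ (a + b).factorial :=
    Nat.le_of_dvd (Nat.factorial_pos _) (Nat.factorial_mul_factorial_dvd_factorial_add a b)
  have h2 : ((a.factorial : ℝ)) * (b.factorial : ℝ) ≤ (((a + b).factorial : ℕ) : ℝ) := by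
    exact_mod_cast h1
  exact pow_le_pow_left₀ (by positivity) h2 3

/-- products; no reduction of the degree in `α` -/
theorem RTA_mul {ι : Type} [Fintype ι] (α : ℂ) (d d' : ℕ) (B B' : ℝ) (D k l : ℕ) (hB : 1 ≤ B)
    (hB' : 1 ≤ B') (hD : 1 ≤ D) (f g : (ι → ℂ) → ℂ) (hf : RTA α d B D k f)
    (hg : RTA α d' B' D l g) (hkl : 1 ≤ k + l) :
    RTA α (d + d') (2 * (d + 1) * B * B') D (k + l) (fun z => f z * g z) := by
  classical
  obtain ⟨A, hA1, hA2, hA3⟩ := hf
  obtain ⟨A', hA1', hA2', hA3'⟩ := hg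
  have hDC : (D : ℂ) ≠ 0 := Nat.cast_ne_zero.2 (by omega)
  have hsum : ∀ (m : ι → ℕ), ∀ p ∈ adg m, ∑ u, m u = ∑ u, p.1 u + ∑ u, p.2 u := by
    intro m p hp
    rw [mem_adg] at hp
    rw [← sum_add_distrib, ← hp]
    rfl
  refine ⟨fun m => ∑ p ∈ adg m,
    Polynomial.C (∏ u, (((p.1 u + p.2 u).choose (p.2 u) : ℕ) : ℤ)) * (A p.1 * A' p.2), ?_, ?_, ?_⟩
  · intro m
    refine Polynomial.natDegree_sum_le_of_forall_le _ _ fun p _ => ?_
    refine (Polynomial.natDegree_C_mul_le _ _).trans ?_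
    exact Polynomial.natDegree_mul_le.trans (add_le_add (hA1 _) (hA1' _))
  · intro m i
    rw [Polynomial.finsetSum_coeff]
    push_cast
    refine (abs_sum_le_sum_abs _ _).trans ?_
    set N : ℕ := ∑ u, m u + (k + l) with hN
    have hterm : ∀ p ∈ adg m,
        |(((Polynomial.C (∏ u, (((p.1 u + p.2 u).choose (p.2 u) : ℕ) : ℤ)) *
          (A p.1 * A' p.2)).coeff i : ℤ) : ℝ)| ≤
        (∏ u, (((p.1 u + p.2 u).choose (p.2 u) : ℕ) : ℝ)) *
          ((d + 1) * (B ^ N * B' ^ N * ((N.factorial : ℕ) : ℝ) ^ 3)) := by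
      intro p hp
      have hs := hsum m p hp
      rw [Polynomial.coeff_C_mul]
      push_cast
      rw [abs_mul]
      have hc : |∏ u, (((p.1 u + p.2 u).choose (p.2 u) : ℕ) : ℝ)| =
          ∏ u, (((p.1 u + p.2 u).choose (p.2 u) : ℕ) : ℝ) :=
        abs_of_nonneg (prod_nonneg fun u _ => Nat.cast_nonneg _)
      rw [hc]
      refine mul_le_mul_of_nonneg_left ?_ (prod_nonneg fun u _ => Nat.cast_nonneg _)
      refine (Rt_coeff _ _ d (hA1 _) _ _ (hA2 p.1) (hA2' p.2) i).trans ?_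
      refine mul_le_mul_of_nonneg_left ?_ (by positivity)
      have h1 : B ^ (∑ u, p.1 u + k) ≤ B ^ N := pow_le_pow_right₀ hB (by omega)
      have h2 : B' ^ (∑ u, p.2 u + l) ≤ B' ^ N := pow_le_pow_right₀ hB' (by omega)
      have h3 := Rt_fac (∑ u, p.1 u + k) (∑ u, p.2 u + l)
      have h4 : ∑ u, p.1 u + k + (∑ u, p.2 u + l) = N := by omega
      rw [h4] at h3
      calc B ^ (∑ u, p.1 u + k) * (((∑ u, p.1 u + k).factorial : ℕ) : ℝ) ^ 3 *
            (B' ^ (∑ u, p.2 u + l) * (((∑ u, p.2 u + l).factorial : ℕ) : ℝ) ^ 3)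
          = (B ^ (∑ u, p.1 u + k) * B' ^ (∑ u, p.2 u + l)) *
            ((((∑ u, p.1 u + k).factorial : ℕ) : ℝ) ^ 3 *
              (((∑ u, p.2 u + l).factorial : ℕ) : ℝ) ^ 3) := by ring
        _ ≤ (B ^ N * B' ^ N) * ((N.factorial : ℕ) : ℝ) ^ 3 := by
            refine mul_le_mul ?_ h3 (by positivity) (by positivity)
            exact mul_le_mul h1 h2 (by positivity) (by positivity)
    refine (sum_le_sum hterm).trans ?_
    rw [← sum_mul, Rt_adg]
    have h5 : (2 : ℝ) ^ (∑ u, m u) ≤ 2 ^ N := pow_le_pow_right₀ (by norm_num) (by omega)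
    have h6 : ((d : ℝ) + 1) ≤ ((d : ℝ) + 1) ^ N :=
      le_self_pow₀ (by linarith [(Nat.cast_nonneg d : (0 : ℝ) ≤ d)]) (by omega)
    have h7 : 0 < B := by linarith
    have h8 : 0 < B' := by linarith
    calc (2 : ℝ) ^ (∑ u, m u) * ((d + 1) * (B ^ N * B' ^ N * ((N.factorial : ℕ) : ℝ) ^ 3))
        ≤ 2 ^ N * (((d : ℝ) + 1) ^ N * (B ^ N * B' ^ N * ((N.factorial : ℕ) : ℝ) ^ 3)) := by
          refine mul_le_mul h5 ?_ (by positivity) (by positivity)
          exact mul_le_mul_of_nonneg_right h6 (by positivity)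
      _ = (2 * (d + 1) * B * B') ^ N * ((N.factorial : ℕ) : ℝ) ^ 3 := by
          rw [mul_pow, mul_pow, mul_pow]
          ring
  · have h1 : PS (fun m => Polynomial.aeval α (A m) /
        ((D : ℂ) ^ (∑ u, m u + k) * ∏ u, ((m u).factorial : ℂ))) f := hA3
    have h2 : PS (fun m => Polynomial.aeval α (A' m) /
        ((D : ℂ) ^ (∑ u, m u + l) * ∏ u, ((m u).factorial : ℂ))) g := hA3'
    have h3 := Pool.Agent.Helper13.LT.PS.mul h1 h2
    intro z
    refine (h3 z).congr_fun ?_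
    intro m
    congr 1
    rw [cv, map_sum, sum_div]
    refine sum_congr rfl fun p hp => ?_
    have hs := hsum m p hp
    rw [mem_adg] at hp
    have h4 : ∀ u, m u = p.1 u + p.2 u := fun u => by rw [← hp]; rfl
    have h5 : ∏ u, ((m u).factorial : ℂ) = (∏ u, ((p.1 u).factorial : ℂ)) *
        (∏ u, ((p.2 u).factorial : ℂ)) * ∏ u, (((p.1 u + p.2 u).choose (p.2 u) : ℕ) : ℂ) := by
      rw [← Finset.prod_mul_distrib, ← Finset.prod_mul_distrib]
      refine Finset.prod_congr rfl fun u _ => ?_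
      rw [h4 u]
      have h6 := Nat.add_choose_mul_factorial_mul_factorial (p.1 u) (p.2 u)
      rw [← h6]
      push_cast
      ring
    have h7 : ∏ u, (((p.1 u + p.2 u).choose (p.2 u) : ℕ) : ℂ) ≠ 0 := by
      refine Finset.prod_ne_zero_iff.2 fun u _ => Nat.cast_ne_zero.2 ?_
      exact (Nat.choose_pos (Nat.le_add_left _ _)).ne'
    have h8 : ∑ u, m u + (k + l) = (∑ u, p.1 u + k) + (∑ u, p.2 u + l) := by omega
    rw [h5, h8, pow_add, map_mul, map_mul, Polynomial.aeval_C]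
    have h9 := Rt_ne p.1
    have h10 := Rt_ne p.2
    simp only [map_prod, map_natCast]
    field_simp

/-- other denominators and bounds -/
theorem RTA_mono {ι : Type} [Fintype ι] (α : ℂ) (d d' : ℕ) (B B' : ℝ) (D E k : ℕ) (hB : 1 ≤ B)
    (hE : 1 ≤ E) (hd : d ≤ d') (hBB : E * B ≤ B') (f : (ι → ℂ) → ℂ) (hf : RTA α d B D k f) :
    RTA α d' B' (D * E) k f := by
  obtain ⟨A, hA1, hA2, hA3⟩ := hf
  have hEC : (E : ℂ) ≠ 0 := Nat.cast_ne_zero.2 (by omega)
  refine ⟨fun m => Polynomial.C ((E : ℤ) ^ (∑ u, m u + k)) * A m, ?_, ?_, ?_⟩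
  · intro m
    exact (Polynomial.natDegree_C_mul_le _ _).trans ((hA1 m).trans hd)
  · intro m i
    rw [Polynomial.coeff_C_mul]
    push_cast
    rw [abs_mul, abs_of_nonneg (by positivity : (0 : ℝ) ≤ (E : ℝ) ^ (∑ u, m u + k))]
    calc (E : ℝ) ^ (∑ u, m u + k) * |(((A m).coeff i : ℤ) : ℝ)|
        ≤ (E : ℝ) ^ (∑ u, m u + k) *
          (B ^ (∑ u, m u + k) * ((∑ u, m u + k).factorial : ℝ) ^ 3) :=
          mul_le_mul_of_nonneg_left (hA2 m i) (by positivity)
      _ = (E * B) ^ (∑ u, m u + k) * ((∑ u, m u + k).factorial : ℝ) ^ 3 := by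
          rw [mul_pow]
          ring
      _ ≤ B' ^ (∑ u, m u + k) * ((∑ u, m u + k).factorial : ℝ) ^ 3 := by
          refine mul_le_mul_of_nonneg_right ?_ (by positivity)
          exact pow_le_pow_left₀ (by positivity) hBB _
  · intro z
    refine (hA3 z).congr_fun ?_
    intro m
    congr 1
    rw [map_mul, Polynomial.aeval_C, Nat.cast_mul, mul_pow]
    simp only [map_pow, map_natCast]
    rw [show (D : ℂ) ^ (∑ u, m u + k) * (E : ℂ) ^ (∑ u, m u + k) *
        ∏ u, ((m u).factorial : ℂ) = (E : ℂ) ^ (∑ u, m u + k) *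
          ((D : ℂ) ^ (∑ u, m u + k) * ∏ u, ((m u).factorial : ℂ)) by ring]
    exact mul_div_mul_left _ _ (pow_ne_zero _ hEC)

/-- `k` may be lowered to `1` -/
theorem RTx_of {ι : Type} [Fintype ι] (α : ℂ) (d : ℕ) (B : ℝ) (D k : ℕ) (hB : 1 ≤ B) (hD : 1 ≤ D)
    (f : (ι → ℂ) → ℂ) (hf : RTA α d B D k f) : RTx α f := by
  obtain ⟨A, hA1, hA2, hA3⟩ := hf
  have hDC : (D : ℂ) ≠ 0 := Nat.cast_ne_zero.2 (by omega)
  have hDR : (1 : ℝ) ≤ D := by exact_mod_cast hD
  have hfk : (1 : ℝ) ≤ (k.factorial : ℝ) := by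
    have h := Nat.factorial_pos k
    exact_mod_cast h
  have h2k : (1 : ℝ) ≤ 2 ^ (k + 1) := one_le_pow₀ (by norm_num)
  refine ⟨d, (D : ℝ) ^ (k + 1) * B ^ (k + 1) * ((2 : ℝ) ^ (k + 1) * k.factorial) ^ 3,
    D ^ (k + 1), ?_, Nat.one_le_pow _ _ hD,
    fun m => Polynomial.C ((D : ℤ) ^ (k * ∑ u, m u + 1)) * A m, ?_, ?_, ?_⟩
  · have h1 : (1 : ℝ) ≤ (D : ℝ) ^ (k + 1) := one_le_pow₀ hDR
    have h2 : (1 : ℝ) ≤ B ^ (k + 1) := one_le_pow₀ hB
    have h3 : (1 : ℝ) ≤ ((2 : ℝ) ^ (k + 1) * k.factorial) ^ 3 :=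
      one_le_pow₀ (one_le_mul_of_one_le_of_one_le h2k hfk)
    exact one_le_mul_of_one_le_of_one_le (one_le_mul_of_one_le_of_one_le h1 h2) h3
  · intro m
    exact (Polynomial.natDegree_C_mul_le _ _).trans (hA1 m)
  · intro m i
    set n : ℕ := ∑ u, m u with hn
    rw [Polynomial.coeff_C_mul]
    push_cast
    rw [abs_mul, abs_of_nonneg (by positivity : (0 : ℝ) ≤ (D : ℝ) ^ (k * n + 1))]
    have h1 : (D : ℝ) ^ (k * n + 1) ≤ ((D : ℝ) ^ (k + 1)) ^ (n + 1) := by
      rw [← pow_mul]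
      exact pow_le_pow_right₀ hDR (by nlinarith)
    have h2 : B ^ (n + k) ≤ (B ^ (k + 1)) ^ (n + 1) := by
      rw [← pow_mul]
      exact pow_le_pow_right₀ hB (by nlinarith)
    have h3 : (((n + k).factorial : ℕ) : ℝ) ≤
        ((2 : ℝ) ^ (k + 1) * k.factorial) ^ (n + 1) * (((n + 1).factorial : ℕ) : ℝ) := by
      have h4 : ((n + k).factorial : ℝ) = ((n + k).choose k : ℝ) * (n.factorial : ℝ) *
          (k.factorial : ℝ) := by
        exact_mod_cast (Nat.add_choose_mul_factorial_mul_factorial n k).symm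
      have h5 : ((n + k).choose k : ℝ) ≤ 2 ^ (n + k) := by
        exact_mod_cast Nat.choose_le_two_pow (n + k) k
      have h6 : (2 : ℝ) ^ (n + k) ≤ ((2 : ℝ) ^ (k + 1)) ^ (n + 1) := by
        rw [← pow_mul]
        exact pow_le_pow_right₀ (by norm_num) (by nlinarith)
      have h7 : (k.factorial : ℝ) ≤ (k.factorial : ℝ) ^ (n + 1) :=
        le_self_pow₀ hfk (by omega)
      have h8 : (n.factorial : ℝ) ≤ ((n + 1).factorial : ℝ) := by
        exact_mod_cast Nat.factorial_le (by omega)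
      rw [h4]
      calc ((n + k).choose k : ℝ) * (n.factorial : ℝ) * (k.factorial : ℝ)
          ≤ ((2 : ℝ) ^ (k + 1)) ^ (n + 1) * ((n + 1).factorial : ℝ) *
            (k.factorial : ℝ) ^ (n + 1) := by
            refine mul_le_mul ?_ h7 (by positivity) (by positivity)
            exact mul_le_mul (h5.trans h6) h8 (by positivity) (by positivity)
        _ = ((2 : ℝ) ^ (k + 1) * k.factorial) ^ (n + 1) * ((n + 1).factorial : ℝ) := by
            rw [mul_pow]
            ring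
    have h9 : (((n + k).factorial : ℕ) : ℝ) ^ 3 ≤
        (((2 : ℝ) ^ (k + 1) * k.factorial) ^ 3) ^ (n + 1) *
          (((n + 1).factorial : ℕ) : ℝ) ^ 3 := by
      refine (pow_le_pow_left₀ (by positivity) h3 3).trans (le_of_eq ?_)
      rw [mul_pow, ← pow_mul, ← pow_mul, mul_comm 3]
    calc (D : ℝ) ^ (k * n + 1) * |(((A m).coeff i : ℤ) : ℝ)|
        ≤ (D : ℝ) ^ (k * n + 1) * (B ^ (n + k) * (((n + k).factorial : ℕ) : ℝ) ^ 3) :=
          mul_le_mul_of_nonneg_left (hA2 m i) (by positivity)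
      _ ≤ ((D : ℝ) ^ (k + 1)) ^ (n + 1) * ((B ^ (k + 1)) ^ (n + 1) *
          ((((2 : ℝ) ^ (k + 1) * k.factorial) ^ 3) ^ (n + 1) *
            (((n + 1).factorial : ℕ) : ℝ) ^ 3)) := by
          refine mul_le_mul h1 ?_ (by positivity) (by positivity)
          exact mul_le_mul h2 h9 (by positivity) (by positivity)
      _ = ((D : ℝ) ^ (k + 1) * B ^ (k + 1) * ((2 : ℝ) ^ (k + 1) * k.factorial) ^ 3) ^ (n + 1) *
          (((n + 1).factorial : ℕ) : ℝ) ^ 3 := by
          rw [mul_pow ((D : ℝ) ^ (k + 1) * B ^ (k + 1)), mul_pow ((D : ℝ) ^ (k + 1))]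
          ring
  · intro z
    refine (hA3 z).congr_fun ?_
    intro m
    congr 1
    rw [map_mul, Polynomial.aeval_C, Nat.cast_pow, ← pow_mul]
    simp only [map_pow, map_natCast]
    have h1 : (k + 1) * (∑ u, m u + 1) = (k * ∑ u, m u + 1) + (∑ u, m u + k) := by ring
    have h2 : (D : ℂ) ^ ((k + 1) * (∑ u, m u + 1)) * ∏ u, ((m u).factorial : ℂ) =
        (D : ℂ) ^ (k * ∑ u, m u + 1) *
          ((D : ℂ) ^ (∑ u, m u + k) * ∏ u, ((m u).factorial : ℂ)) := by
      rw [h1, pow_add]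
      ring
    rw [h2]
    exact mul_div_mul_left _ _ (pow_ne_zero _ hDC)

theorem RTx_mul {ι : Type} [Fintype ι] (α : ℂ) (f g : (ι → ℂ) → ℂ) (hf : RTx α f)
    (hg : RTx α g) : RTx α (fun z => f z * g z) := by
  obtain ⟨d, B, D, hB, hD, hf⟩ := hf
  obtain ⟨d', B', D', hB', hD', hg⟩ := hg
  have hDR : (1 : ℝ) ≤ D := by exact_mod_cast hD
  have hDR' : (1 : ℝ) ≤ D' := by exact_mod_cast hD'
  have h1 := RTA_mono α d d B (D' * B) D D' 1 hB hD' le_rfl le_rfl f hf
  have h2 := RTA_mono α d' d' B' (D * B') D' D 1 hB' hD le_rfl le_rfl g hg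
  rw [mul_comm D' D] at h2
  have hb1 : (1 : ℝ) ≤ D' * B := one_le_mul_of_one_le_of_one_le hDR' hB
  have hb2 : (1 : ℝ) ≤ D * B' := one_le_mul_of_one_le_of_one_le hDR hB'
  have h3 := RTA_mul α d d' _ _ (D * D') 1 1 hb1 hb2 (Nat.mul_pos hD hD') f g h1 h2 (by norm_num)
  refine RTx_of α _ _ _ _ ?_ (Nat.mul_pos hD hD') _ h3
  have h4 : (1 : ℝ) ≤ 2 * (d + 1) := by
    have : (0 : ℝ) ≤ d := Nat.cast_nonneg d
    linarith
  exact one_le_mul_of_one_le_of_one_le (one_le_mul_of_one_le_of_one_le h4 hb1) hb2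

theorem RTx_one {ι : Type} [Fintype ι] (α : ℂ) : RTx α (fun _ : ι → ℂ => (1 : ℂ)) := by
  classical
  refine ⟨0, 1, 1, le_rfl, le_rfl, fun m => if m = 0 then 1 else 0, ?_, ?_, ?_⟩
  · intro m
    by_cases hm : m = 0 <;> simp [hm]
  · intro m i
    have h1 : (1 : ℝ) ≤ 1 ^ (∑ u, m u + 1) * (((∑ u, m u + 1).factorial : ℕ) : ℝ) ^ 3 := by
      rw [one_pow, one_mul]
      have h := Nat.factorial_pos (∑ u, m u + 1)
      exact one_le_pow₀ (by exact_mod_cast h)
    refine le_trans ?_ h1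
    by_cases hm : m = 0
    · simp only [if_pos hm, Polynomial.coeff_one]
      split_ifs <;> simp
    · simp [hm]
  · have h1 := PS.const (ι := ι) (1 : ℂ)
    intro z
    refine (h1 z).congr_fun ?_
    intro m
    congr 1
    by_cases hm : m = 0
    · subst hm
      simp
    · simp [hm]

theorem RTx_pow {ι : Type} [Fintype ι] (α : ℂ) (f : (ι → ℂ) → ℂ) (hf : RTx α f) (N : ℕ) :
    RTx α (fun z => f z ^ N) := by
  induction N with
  | zero => simpa using RTx_one (ι := ι) α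
  | succ N ih =>
    have h1 := RTx_mul α _ _ ih hf
    simpa only [pow_succ] using h1

end Pool.Agent.Helper4.LE
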